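import Pool.Agent.H46FF.Lev
import Pool.Agent.H46FF.Geo
import Pool.Agent.N384.MQ.Quot

/-!
# Level of distribution `1 - ε` for residues near arbitrary sets with small Fourier coefficients modulo arbitrary integers

From Mathlib: `ZMod.stdAddChar`: the additive character `j ↦ exp (2 π i j / M)` of the integers modulo `M`; `ZMod.val`: the
least residue; `ArithmeticFunction.vonMangoldt`: the function `Λ`; `Nat.totient`: Euler's function; `orderOf`: the order of
an element of a monoid (`0` if it is not of finite order).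

Method: a family of residues modulo `M` with small Fourier coefficients has small exponential sums at all real frequencies
which are not close to integers (`Pool.Agent.N384.MQ.transferX`, from the library, where it was used for least primes in
progressions); from such exponential sums to the level of distribution with weights of the size of divisor functions:
`Pool.Agent.N625.DY` and `Pool.Agent.N213.GF.cls_heavy_near` (library), based on `Pool.Agent.TH872` (starting files).
Examples: geometric progressions by a theorem of Bourgain, Glibichuk and Konyagin, extended by Bourgain and Chang to products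
of few primes (library: `Pool.Agent.H82.BC`), and a lemma of Ajtai, Iwaniec, Komlos, Pintz and Szemeredi on quotients
by small primes (library: `Pool.Agent.N384.MQ.Quot`).
-/

set_option autoImplicit false

namespace Pool.Agent.Results.MP_00e23e_nt.FourierFlatResidues

open Finset

/-- The Fourier coefficients of the residues `y i`, `i ∈ s`, modulo `M` at the nonzero frequencies are at most
`η` times the number of the residues: `|∑ i ∈ s, e(h y_i / M)| ≤ η |s|` for all `h ≠ 0` modulo `M`. -/
def Flat {ι : Type} (M : ℕ) [NeZero M] (η : ℝ) (s : Finset ι) (y : ι → ZMod M) : Prop :=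
  ∀ h : ZMod M, h ≠ 0 → ‖∑ i ∈ s, (ZMod.stdAddChar (h * y i) : ℂ)‖ ≤ η * s.card

/-- `E(x; d, r) = ψ(x; d, r) - x / φ(d)`, where `ψ(x; d, r)` is the sum of `Λ(n)` over the `n ≤ x` with
`n ≡ r (mod d)`. -/
noncomputable def E (x d r : ℕ) : ℝ :=
  ∑ n ∈ (Icc 1 x).filter (fun n => n ≡ r [MOD d]), ArithmeticFunction.vonMangoldt n - (x : ℝ) / Nat.totient d

/-- The sum of `λ(d) E(x(d); d, r)` over the `d ≤ D` coprime to `r`. -/
noncomputable def weighted (lam : ℕ → ℝ) (x : ℕ → ℕ) (D r : ℕ) : ℝ :=
  ∑ d ∈ (Icc 1 D).filter (fun d => r.Coprime d), lam d * E (x d) d r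

/-- The sum of `λ(d) E(z; d, r)` over the `d ≤ M ^ (1 - ε)` coprime to `r` is at most `M / log ^ U M` in absolute value for
all `z ≤ M log ^ a M`, and so is the sum of `λ(d) E(x(d); d, r)`. -/
def Level (M a U : ℕ) (ε : ℝ) (lam : ℕ → ℝ) (x : ℕ → ℕ) (r : ℕ) : Prop :=
  (∀ z : ℕ, (z : ℝ) ≤ M * Real.log M ^ a →
    |weighted lam (fun _ => z) ⌊(M : ℝ) ^ (1 - ε)⌋₊ r| ≤ M / Real.log M ^ U) ∧
  |weighted lam x ⌊(M : ℝ) ^ (1 - ε)⌋₊ r| ≤ M / Real.log M ^ U

open Classical in
/-- **(1)** Let `κ ≠ 0`, `a`, `T`, `U`, `W` and `0 < ε ≤ 1` be fixed. There is a number `V` such that the following holds for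
all large integers `M`. Let `y i`, `i ∈ s`, be a finite family of residues modulo `M` whose Fourier coefficients at the
nonzero frequencies are at most `|s| / log ^ V M`, let `|c| ≤ M log ^ a M`, let at most `log ^ T M` systems of coefficients
`λ_l(d)` with `|λ_l(d)| ≤ (τ(d) log M) ^ T`, where `τ(d)` is the number of the divisors of `d`, and arbitrary functions
`x_l(d) ≤ M log ^ a M` of the modulus be given. Then all the `i ∈ s`, with at most `|s| / log ^ U M` exceptions, have the
following property: for ALL the integers `r > 0` with `|r - (c + κ y_i)| ≤ log ^ W M` (with the least residue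
`0 ≤ y_i < M`) and all `l`, the sum of `λ_l(d) E(x_l(d); d, r)` over the `d ≤ M ^ (1 - ε)` coprime to `r` is at most
`M / log ^ U M` in absolute value, and so is the sum of `λ_l(d) E(z; d, r)` for all `z ≤ M log ^ a M`.

**(2)** Example: let `δ > 0`, `n` and `V` be fixed. For all large squarefree `q` with at most `n` prime factors, the geometric
progression `A g ^ i`, `0 ≤ i < N`, satisfies the condition of (1) modulo `q`, if `A` is coprime to `q`, `N ≥ q ^ δ` and the
order of `g` modulo every prime factor of `q` is at least `N`. (For instance all the cosets of all the subgroups of the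
multiplicative group modulo a prime `q` of an order of at least `q ^ δ`.)

**(3)** Example: the quotients `j / r` of the integers `0 ≤ j < S` by the primes `r ≤ R` satisfy the condition of (1)
modulo all large primes `p`, if `log ^ (V + 4) p ≤ R < p` and `R ^ 2 ≤ S`; there are such sets with at most `log ^ (3 V + 13) p`
members. -/
theorem result :
    (∀ κ : ℤ, κ ≠ 0 → ∀ (a T U W : ℕ) (ε : ℝ), 0 < ε → ε ≤ 1 → ∃ V M₀ : ℕ, ∀ M : ℕ, M₀ ≤ M → ∀ [NeZero M]
      (ι : Type) (s : Finset ι) (y : ι → ZMod M), Flat M (1 / Real.log M ^ V) s y →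
      ∀ c : ℤ, |(c : ℝ)| ≤ M * Real.log M ^ a →
      ∀ L : ℕ, (L : ℝ) ≤ Real.log M ^ T → ∀ lam : Fin L → ℕ → ℝ,
      (∀ l d, |lam l d| ≤ (d.divisors.card * Real.log M) ^ T) →
      ∀ x : Fin L → ℕ → ℕ, (∀ l d, (x l d : ℝ) ≤ M * Real.log M ^ a) →
        ((s.filter fun i => ¬ ∀ r : ℤ, |(r : ℝ) - (c + κ * ((y i).val : ℕ))| ≤ Real.log M ^ W → 0 < r →
          ∀ l, Level M a U ε (lam l) (x l) r.toNat).card : ℝ) ≤ s.card / Real.log M ^ U) ∧
    (∀ (δ : ℝ), 0 < δ → ∀ n V : ℕ, ∃ q₀ : ℕ, ∀ q : ℕ, q₀ ≤ q → ∀ [NeZero q], Squarefree q →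
      q.primeFactors.card ≤ n → ∀ A g N : ℕ, Nat.Coprime A q → (∀ p ∈ q.primeFactors, N ≤ orderOf (g : ZMod p)) →
      (q : ℝ) ^ δ ≤ N → Flat q (1 / Real.log q ^ V) (range N) (fun i => ((A * g ^ i : ℕ) : ZMod q))) ∧
    (∀ V : ℕ, ∃ P₀ : ℕ, ∀ p : ℕ, P₀ ≤ p → ∀ [Fact p.Prime], ∀ R S : ℕ, Real.log p ^ (V + 4) ≤ R → R < p → R ^ 2 ≤ S →
      Flat p (1 / Real.log p ^ V) (((Icc 1 R).filter Nat.Prime) ×ˢ range S)
        (fun z => ((z.2 : ℕ) : ZMod p) * ((z.1 : ℕ) : ZMod p)⁻¹)) := by
  refine ⟨fun κ hκ a T U W ε hε hε1 => ?_, fun δ hδ n V => ?_, fun V => ?_⟩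
  · obtain ⟨V, M₀, h1⟩ := Pool.Agent.H46FF.flat_level κ hκ a T U W ε hε hε1
    refine ⟨V, M₀, fun M hM _ ι s y hf c hc L hL lam hlam x hx => ?_⟩
    exact h1 M hM ι s y hf c hc L hL lam (fun l d => by rw [mul_comm (Real.log M)]; exact hlam l d) x hx
  · exact Pool.Agent.H46FF.flat_geo δ hδ n V
  · exact Pool.Agent.N384.MQ.flat_quot V

end Pool.Agent.Results.MP_00e23e_nt.FourierFlatResidues
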