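import Pool.Agent.H85G.F
import Pool.Agent.N213.GF.I

/-!
# Level of distribution `1 - ε` for all residues near random integers whose digits have long range interactions

The digits form a Gibbs measure: the interactions have unbounded range, involve any number of digits, and are neither small
nor translation invariant; the only condition is that they are summable at each position. The a priori measure is an
arbitrary Markov random field with flexible digits (it may have hard constraints) on an arbitrary graph of positions of
bounded degree. For such measures there is in general no decay of correlations, no ergodicity, and no independence after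
conditioning on a part of the digits.

Method (`Pool.Agent.H85G`): given a set of positions, one chooses a dense subset of positions whose interactions with each
other have a small total weight (greedily, `sparse`), conditions on the digits outside the blocks around these positions, and
expands the product of the factors `1 + (e ^ φ - 1)` of the interactions between different blocks (`expand`): each factor
destroys the cancellation in at most as many blocks as there are positions in it. Hence the exponential sums over the random
integers are exponentially small in the number of the positions at which the frequency has a digit which is not extremal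
(`tilt`, `gt_good`). The passage from such exponential sums to primes in residue classes is from the starting files
(`Pool.Agent.N213.GF.cls_heavy_near`).

From Mathlib: `ArithmeticFunction.vonMangoldt`: the function `Λ`; `Nat.totient`: Euler's function.
-/

set_option autoImplicit false

namespace Pool.Agent.Results.MP_00e23e_nt.LongRangeGibbsResidues

open Finset

/-- The digit of `v` at the position `i` in base `b` (the position `0` is the least significant one). -/
def dig (b v i : ℕ) : ℕ := v / b ^ i % b

/-- The integer which has the digits of `v` at the positions in `S` and the digits of `w` at the other positions below `k`. -/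
def splice (b k : ℕ) (S : Finset ℕ) (v w : ℕ) : ℕ := ∑ i ∈ range k, (if i ∈ S then dig b v i else dig b w i) * b ^ i

/-- `v` and `w` have the same digits outside the set `S` of positions. -/
def Off (b : ℕ) (S : Finset ℕ) (v w : ℕ) : Prop := ∀ i, i ∉ S → dig b v i = dig b w i

open Classical in
/-- The closed neighbourhood of the position `i` in the graph `A` on the positions `0, …, k - 1`. -/
noncomputable def nb (k : ℕ) (A : ℕ → ℕ → Prop) (i : ℕ) : Finset ℕ := (range k).filter fun j => j = i ∨ A i j

open Classical in
/-- The total weight of the integers below `b ^ k` which have the same digits as `v` outside `S`. -/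
noncomputable def mass (b k : ℕ) (q : ℕ → ℝ) (S : Finset ℕ) (v : ℕ) : ℝ :=
  ∑ w ∈ (range (b ^ k)).filter (fun w => Off b S w v), q w

/-- The a priori measure: the digits of a random integer `v < b ^ k` (with the probabilities `q v`) form a Markov random
field on a graph `A` of positions with degrees at most `Δ` (for every set `S` of positions and all `v`, `w` which have the
same digits at the positions outside `S` adjacent to `S`, the product `q v * q w` does not change if `v` and `w` exchange
their digits in `S`), and each digit is flexible: for every `v` with `q v ≠ 0` and every position `i`, there are `x` and `y`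
which have the same digits as `v` outside the closed neighbourhood of `i`, which differ from each other exactly at the
position `i`, and whose conditional probabilities, given the digits outside this neighbourhood, are at least `η`. (For
instance, with `Δ = 0`: independent digits, each of which has at least two values with probabilities at least `η`.) -/
structure Field (b k Δ : ℕ) (η : ℝ) (A : ℕ → ℕ → Prop) (q : ℕ → ℝ) : Prop where
  symm : ∀ i j, A i j → A j i
  degree : ∀ i < k, (nb k A i).card ≤ Δ + 1
  nonneg : ∀ v, 0 ≤ q v
  sum : ∑ v ∈ range (b ^ k), q v = 1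
  markov : ∀ S : Finset ℕ, ∀ v < b ^ k, ∀ w < b ^ k, (∀ i ∈ S, ∀ j < k, j ∉ S → A i j → dig b v j = dig b w j) →
    q v * q w = q (splice b k S v w) * q (splice b k S w v)
  flexible : ∀ v < b ^ k, q v ≠ 0 → ∀ i < k, ∃ x < b ^ k, ∃ y < b ^ k, Off b (nb k A i) x v ∧ Off b {i} y x ∧
    dig b y i ≠ dig b x i ∧ η * mass b k q (nb k A i) v ≤ q x ∧ η * mass b k q (nb k A i) v ≤ q y

/-- The interactions `φ X`, for all sets `X ⊆ {0, …, k - 1}` of positions: `φ X v` depends only on the digits of `v` at the
positions in `X`, its absolute value is at most `N X`, and for each position `i` the sum of `exp (r * |X|) * N X` over the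
sets `X` which contain `i` is at most `M`. (For instance, pair interactions `φ {i, j}` with `∑ j, N {i, j} ≤ exp (- 2 r) M`
for all `i`, at arbitrary distances.) -/
structure Interaction (b k : ℕ) (M r : ℝ) (φ : Finset ℕ → ℕ → ℝ) (N : Finset ℕ → ℝ) : Prop where
  depends : ∀ X ⊆ range k, ∀ v < b ^ k, ∀ w < b ^ k, (∀ i ∈ X, dig b v i = dig b w i) → φ X v = φ X w
  bound : ∀ X ⊆ range k, ∀ v < b ^ k, |φ X v| ≤ N X
  summable : ∀ i < k, ∑ X ∈ (range k).powerset.filter (fun X => i ∈ X), Real.exp (r * X.card) * N X ≤ M

/-- The Gibbs weight: the a priori weight times the exponential of the sum of all the interactions. -/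
noncomputable def weight (k : ℕ) (q : ℕ → ℝ) (φ : Finset ℕ → ℕ → ℝ) (v : ℕ) : ℝ :=
  q v * Real.exp (∑ X ∈ (range k).powerset, φ X v)

/-- The Gibbs measure: the probability of `v < b ^ k`. -/
noncomputable def gibbs (b k : ℕ) (q : ℕ → ℝ) (φ : Finset ℕ → ℕ → ℝ) (v : ℕ) : ℝ :=
  weight k q φ v / ∑ w ∈ range (b ^ k), weight k q φ w

/-- `E(x; d, a) = ψ(x; d, a) - x / φ(d)`, where `ψ(x; d, a)` is the sum of `Λ(n)` over the `n ≤ x` with
`n ≡ a (mod d)`. -/
noncomputable def E (x d a : ℕ) : ℝ :=
  ∑ n ∈ (Icc 1 x).filter (fun n => n ≡ a [MOD d]), ArithmeticFunction.vonMangoldt n - (x : ℝ) / Nat.totient d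

/-- The sum of `λ(d) E(x(d); d, a)` over the `d ≤ Q` coprime to `a`. -/
noncomputable def weighted (lam : ℕ → ℝ) (x : ℕ → ℕ) (Q a : ℕ) : ℝ :=
  ∑ d ∈ (Icc 1 Q).filter (fun d => a.Coprime d), lam d * E (x d) d a

/-- With `N = b ^ k` and `Q = N ^ (1 - ε)`: the sum of `λ(d) E(y; d, a)` over the `d ≤ Q` coprime to `a` is at most `N / k ^ U`
in absolute value for all `y ≤ B N`, and so is the sum of `λ(d) E(x(d); d, a)`. -/
def Level (b B U k : ℕ) (ε : ℝ) (lam : ℕ → ℝ) (x : ℕ → ℕ) (a : ℕ) : Prop :=
  (∀ y ≤ B * b ^ k, |weighted lam (fun _ => y) ⌊((b ^ k : ℕ) : ℝ) ^ (1 - ε)⌋₊ a| ≤ ((b ^ k : ℕ) : ℝ) / (k : ℝ) ^ U) ∧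
  |weighted lam x ⌊((b ^ k : ℕ) : ℝ) ^ (1 - ε)⌋₊ a| ≤ ((b ^ k : ℕ) : ℝ) / (k : ℝ) ^ U

lemma field_conv {b k Δ : ℕ} {η : ℝ} {A : ℕ → ℕ → Prop} {q : ℕ → ℝ} (h : Field b k Δ η A q) :
    Pool.Agent.N213.GF.Field b k Δ η A q :=
  ⟨h.symm, h.degree, h.nonneg, h.sum, h.markov, h.flexible⟩

lemma inter_conv {b k : ℕ} {M r : ℝ} {φ : Finset ℕ → ℕ → ℝ} {N : Finset ℕ → ℝ} (hb : 2 ≤ b) (h : Interaction b k M r φ N) :
    Pool.Agent.H85G.Inter b k (max M 0) r (fun X v => if X ⊆ range k then φ X v else 0)
      (fun X => if X ⊆ range k then N X else 0) := by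
  have h0 : ∀ X ⊆ range k, 0 ≤ N X := by
    intro X hX
    exact (abs_nonneg _).trans (h.bound X hX 0 (by positivity))
  refine ⟨?_, ?_, ?_, ?_⟩
  · intro X v hv w hw hvw
    split_ifs with hX
    · exact h.depends X hX v hv w hw hvw
    · rfl
  · intro X v hv
    split_ifs with hX
    · exact h.bound X hX v hv
    · rw [abs_zero]
  · intro X
    split_ifs with hX
    · exact h0 X hX
    · exact le_rfl
  · intro i hi
    refine le_trans (le_of_eq ?_) ((h.summable i hi).trans (le_max_left _ _))
    apply sum_congr rfl
    intro X hX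
    rw [mem_filter, mem_powerset] at hX
    beta_reduce
    rw [if_pos hX.1]

lemma energy_conv {k : ℕ} (φ : Finset ℕ → ℕ → ℝ) (v : ℕ) :
    Pool.Agent.H85G.energy k (fun X v => if X ⊆ range k then φ X v else 0) v = ∑ X ∈ (range k).powerset, φ X v := by
  unfold Pool.Agent.H85G.energy
  apply sum_congr rfl
  intro X hX
  beta_reduce
  rw [if_pos (mem_powerset.1 hX)]

open Classical in
/-- Let `b ≥ 2`, `Δ`, `η > 0`, `M`, `r > 0`, `κ ≠ 0`, `B`, `T`, `W`, `U` and `ε > 0` be fixed, let `k` be large, `N = b ^ k`,
`Q = N ^ (1 - ε)`, and let `c` be an arbitrary integer with `|c| ≤ B N`. Let at most `k ^ T` systems of coefficients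
`λ_l(d)` with `|λ_l(d)| ≤ (k τ(d)) ^ T`, where `τ(d)` is the number of the divisors of `d`, and arbitrary functions
`x_l(d) ≤ B N` of the modulus be given. Let `v < N` be a random integer whose digits have the Gibbs distribution of an
arbitrary interaction which is summable at each position (with the bound `M`), with respect to an arbitrary Markov random
field with flexible digits on a graph of positions with degrees at most `Δ`. Then, with probability at least `1 - 1 / k ^ U`,
ALL the residues `a > 0` at a distance of at most `k ^ W` from `c + κ v` satisfy for all `l`: the sum of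
`λ_l(d) E(x_l(d); d, a)` over the `d ≤ Q` coprime to `a` is at most `N / k ^ U` in absolute value, and so is the sum of
`λ_l(d) E(y; d, a)` for all `y ≤ B N`. -/
theorem result (b Δ : ℕ) (hb : 2 ≤ b) (η : ℝ) (hη : 0 < η) (M r : ℝ) (hr : 0 < r) (κ : ℤ) (hκ : κ ≠ 0) (B T W U : ℕ)
    (ε : ℝ) (hε : 0 < ε) :
    ∃ k₀ : ℕ, ∀ k : ℕ, k₀ ≤ k → ∀ c : ℤ, |c| ≤ B * (b : ℤ) ^ k → ∀ L : ℕ, (L : ℝ) ≤ (k : ℝ) ^ T →
      ∀ lam : Fin L → ℕ → ℝ, (∀ l d, |lam l d| ≤ ((k : ℝ) * d.divisors.card) ^ T) →
      ∀ x : Fin L → ℕ → ℕ, (∀ l d, x l d ≤ B * b ^ k) →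
      ∀ (A : ℕ → ℕ → Prop) (q : ℕ → ℝ), Field b k Δ η A q →
      ∀ (φ : Finset ℕ → ℕ → ℝ) (N : Finset ℕ → ℝ), Interaction b k M r φ N →
        ∑ v ∈ range (b ^ k), (if (∀ a : ℤ, |a - (c + κ * (v : ℕ))| ≤ (k : ℤ) ^ W → 0 < a →
          ∀ l, Level b B U k ε (lam l) (x l) a.toNat) then 0 else gibbs b k q φ v) ≤ 1 / (k : ℝ) ^ U := by
  obtain ⟨k1, h1⟩ := Pool.Agent.N213.GF.cls_heavy_near
    (Pool.Agent.H85G.good_cls hb (Pool.Agent.H85G.gt_good b Δ hb η (max M 0) r hη (le_max_right _ _) hr) κ hκ) B T W U ε hε
  refine ⟨k1, fun k hk c hc L hL lam hlam x hx A q hq φ N hφ => ?_⟩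
  have hp : Pool.Agent.H85G.GT b Δ η (max M 0) r k (gibbs b k q φ) := by
    refine ⟨A, q, _, _, field_conv hq, inter_conv hb hφ, ?_⟩
    funext v
    unfold gibbs weight Pool.Agent.H85G.gibbs
    simp only [energy_conv]
  refine le_trans (le_of_eq ?_) (h1 k hk _ hp c hc L hL lam (fun l q => by rw [← mul_pow]; exact hlam l q) x hx)
  apply sum_congr rfl
  intro v _
  congr

end Pool.Agent.Results.MP_00e23e_nt.LongRangeGibbsResidues
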