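import Pool.Agent.H92.Pd.A8

/-!
# Level of distribution for all residues near the values of a polynomial at an integer with random digits

The additive energy of integers close to the values of a real polynomial at integers with independent random digits is
as small as possible up to powers of the logarithm (`Pool.Agent.H92.Pd.energy_digits`). Method: a Weyl inequality for polynomials of
arbitrary degree `d` at integers with independent random digits (`Pool.Agent.H92.Pd.weyl_scale`): the phases are
differenced `d - 1` times with respect to blocks of digits at variable positions, and the leading coefficient has a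
rational approximation if the resulting frequencies are badly spaced for all positions of the blocks. The squares are in
the starting files (`Pool.Agent.TH872.Sq`), and so is the passage from the energy to the level of distribution
(`Pool.Agent.TH212.EH`).

From Mathlib: `ArithmeticFunction.vonMangoldt`: the function `Λ`; `Nat.totient`: Euler's function.
-/

set_option autoImplicit false

namespace Pool.Agent.Results.MP_00e23e_nt.PolynomialDigitResidues

open Finset

/-- For `i < k` and `a < b` let `w i a` be the probability that the digit number `i` in base `b` is equal to `a`; no digit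
has a probability larger than `1 - η`. -/
structure Digits (b k : ℕ) (η : ℝ) (w : ℕ → ℕ → ℝ) : Prop where
  nonneg : ∀ i < k, ∀ a < b, 0 ≤ w i a
  sum : ∀ i < k, ∑ a ∈ range b, w i a = 1
  le : ∀ i < k, ∀ a < b, w i a ≤ 1 - η

/-- The probability of the integer `n < b ^ k`, if its `k` digits in base `b` are independent of each other. -/
noncomputable def prob (b k : ℕ) (w : ℕ → ℕ → ℝ) (n : ℕ) : ℝ := ∏ i ∈ range k, w i (n / b ^ i % b)

/-- `E(x; q, a) = ψ(x; q, a) - x / φ(q)`, where `ψ(x; q, a)` is the sum of `Λ(n)` over the `n ≤ x` with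
`n ≡ a (mod q)`. -/
noncomputable def E (x q a : ℕ) : ℝ :=
  ∑ n ∈ (Icc 1 x).filter (fun n => n ≡ a [MOD q]), ArithmeticFunction.vonMangoldt n - (x : ℝ) / Nat.totient q

/-- The sum of `λ(q) E(x(q); q, a)` over the `q ≤ Q` coprime to `a`. -/
noncomputable def weighted (lam : ℕ → ℝ) (x : ℕ → ℕ) (Q a : ℕ) : ℝ :=
  ∑ q ∈ (Icc 1 Q).filter (fun q => a.Coprime q), lam q * E (x q) q a

/-- For all `Q ≤ N / exp (K (log log N) ^ 2)`, the sum of `λ(q) E(y; q, a)` over the `q ≤ Q` coprime to `a` is at most
`N / log ^ U N` in absolute value for all `y ≤ B N`, and so is the sum of `λ(q) E(x(q); q, a)`. -/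
def Level (B U K N : ℕ) (lam : ℕ → ℝ) (x : ℕ → ℕ) (a : ℕ) : Prop :=
  ∀ Q : ℕ, (Q : ℝ) ≤ N / Real.exp (K * Real.log (Real.log N) ^ 2) →
    (∀ y ≤ B * N, |weighted lam (fun _ => y) Q a| ≤ N / Real.log N ^ U) ∧ |weighted lam x Q a| ≤ N / Real.log N ^ U

open Classical in
/-- Let the base `b ≥ 2`, the degree `d ≥ 2`, `A`, `B`, `T`, `U`, `W` and `η > 0` be fixed. There is a `K` such that the
following holds for all large `N` and all numbers `k` of digits with `N ≤ b ^ (d k) log ^ A N`. Let `n < b ^ k` be a random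
integer with independent digits in base `b`, no digit having a probability larger than `1 - η` (for example, the digits
lie in arbitrary sets of at least two digits, which depend on the place, with equal probabilities). Let
`F` be a polynomial with real coefficients of a degree of at most `d`, whose coefficient `α` of `X ^ d` satisfies
`1 / log ^ A N ≤ |α| ≤ log ^ A N`, and with `|F(n)| ≤ B N` for all possible `n`; the other coefficients are arbitrary. Let
at most `log ^ T N` systems of coefficients `λ_l(q)` with `|λ_l(q)| ≤ (τ(q) log N) ^ T`, where `τ(q)` is the number of the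
divisors of `q` (e.g. `|λ_l(q)| ≤ 3 ^ ν(q)` if `T = 2`), and arbitrary functions `x_l(q) ≤ B N` of the modulus be given.

Then, with a probability of at least `1 - 1 / log ^ U N`, ALL the positive integers `a` at a distance of at most
`log ^ W N` from `F(n)` have the following property for all `l`: for all `Q ≤ N / exp (K (log log N) ^ 2)`, the sum of
`λ_l(q) E(y; q, a)` over the `q ≤ Q` coprime to `a` is at most `N / log ^ U N` in absolute value for all `y ≤ B N`, and so
is the sum of `λ_l(q) E(x_l(q); q, a)`. -/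
theorem result (b d A B T U W : ℕ) (hb : 2 ≤ b) (hd : 2 ≤ d) (η : ℝ) (hη : 0 < η) :
    ∃ K N₀ : ℕ, ∀ N : ℕ, N₀ ≤ N → ∀ k : ℕ, (N : ℝ) ≤ Real.log N ^ A * ((b : ℝ) ^ k) ^ d →
      ∀ w : ℕ → ℕ → ℝ, Digits b k η w →
      ∀ F : Polynomial ℝ, F.natDegree ≤ d → 1 / Real.log N ^ A ≤ |F.coeff d| → |F.coeff d| ≤ Real.log N ^ A →
      (∀ n < b ^ k, prob b k w n ≠ 0 → |F.eval (n : ℝ)| ≤ B * N) →
      ∀ R : ℕ, (R : ℝ) ≤ Real.log N ^ T →
      ∀ lam : Fin R → ℕ → ℝ, (∀ l q, |lam l q| ≤ (q.divisors.card * Real.log N) ^ T) →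
      ∀ x : Fin R → ℕ → ℕ, (∀ l q, x l q ≤ B * N) →
        ∑ n ∈ range (b ^ k), (if ∀ a : ℕ, 0 < a → |(a : ℝ) - F.eval (n : ℝ)| ≤ Real.log N ^ W →
          ∀ l, Level B U K N (lam l) (x l) a then 0 else prob b k w n) ≤ 1 / Real.log N ^ U := by
  obtain ⟨K, n1, h1⟩ := Pool.Agent.H92.Pd.levels b (d - 1) A B T U W hb (by omega) η hη
  obtain ⟨n2, h2⟩ := Pool.Agent.H92.Pd.k_pos b d A
  have hd1 : d - 1 + 1 = d := by omega
  rw [hd1] at h1
  refine ⟨K, n1 + n2, fun N hN k hNk w hw F hF hα1 hα2 hFB R hR lam hlam x hx => ?_⟩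
  have hk := h2 N (by omega) k hNk
  have hw' : Pool.Agent.H92.Pd.Digs b k η w := ⟨hw.nonneg, hw.sum, hw.le⟩
  have hP : ∀ n, Pool.Agent.TH872.Sq.P b (Pool.Agent.H92.Pd.ext b k w) 0 k n = prob b k w n := fun n =>
    Pool.Agent.H92.Pd.P_ext hb w n
  have h3 := h1 N (by omega) k (by
    rw [mul_comm d k, pow_mul]
    exact hNk) (Pool.Agent.H92.Pd.ext b k w) (Pool.Agent.H92.Pd.dig_ext hb hk hw') F hF hα1 hα2 (by
    intro n hn hne
    rw [hP] at hne
    exact hFB n hn hne) R hR lam (by
    intro l q
    refine (hlam l q).trans (le_of_eq ?_)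
    rw [mul_pow, mul_comm]) x hx
  refine le_trans (sum_le_sum ?_) h3
  intro n _
  rw [hP]
  have hlev : ∀ (l : Fin R) (a : ℕ), Pool.Agent.H92.Pd.Lv B U K N (lam l) (x l) a → Level B U K N (lam l) (x l) a := by
    intro l a hla Q hQ
    exact ⟨fun y hy => hla.1 Q hQ y hy, hla.2 Q hQ⟩
  have hp : 0 ≤ prob b k w n := by
    rw [← hP]
    exact Pool.Agent.TH872.Sq.P_nonneg (Pool.Agent.H92.Pd.dig_ext hb hk hw') 0 k n
  split_ifs with h4 h5
  · exact le_rfl
  · exact hp
  · exact absurd (fun a ha1 ha2 l => hlev l a ((by assumption : ∀ a : ℕ, 0 < a → |(a : ℝ) - F.eval (n : ℝ)| ≤ Real.log N ^ W →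
      ∀ l, Pool.Agent.H92.Pd.Lv B U K N (lam l) (x l) a) a ha1 ha2 l)) h4
  · exact le_rfl

end Pool.Agent.Results.MP_00e23e_nt.PolynomialDigitResidues
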