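import Pool.Agent.HP84.RS.Lev

/-!
# Level of distribution `N ^ (1 - o(1))` for almost all values of sums of independent random integers which serve more
than three fifths of all scales

The independent random integers `X_i` may have any sizes, their number is arbitrary, and one of them may serve many
scales; up to two fifths of all scales need not be served at all.

From Mathlib: `ArithmeticFunction.vonMangoldt`: the function `Λ`; `Nat.totient`: Euler's function;
`Fintype.piFinset A`: the vectors `x` with `x i ∈ A i` for all `i`.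
-/

set_option autoImplicit false

namespace Pool.Agent.Results.MP_00e23e_nt.SumsServingScales

open Finset

/-- `E(x; m, a) = ψ(x; m, a) - x / φ(m)`, where `ψ(x; m, a)` is the sum of `Λ(n)` over the `n ≤ x` with
`n ≡ a (mod m)`. -/
noncomputable def E (x m a : ℕ) : ℝ :=
  ∑ n ∈ (Icc 1 x).filter (fun n : ℕ => n ≡ a [MOD m]), ArithmeticFunction.vonMangoldt n - (x : ℝ) / Nat.totient m

/-- `τ(m)`: the number of the divisors of `m`. In particular `τ(m) ^ 2 ≥ 3 ^ ν(m)`, where `ν(m)` is the number of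
the prime factors of `m`. -/
noncomputable def τ (m : ℕ) : ℝ := m.divisors.card

/-- The sum of `λ(m) E(x(m); m, a)` over the `m ≤ Q` coprime to `a`. -/
noncomputable def weighted (lam : ℕ → ℝ) (x : ℕ → ℕ) (Q a : ℕ) : ℝ :=
  ∑ m ∈ (Icc 1 Q).filter (fun m : ℕ => a.Coprime m), lam m * E (x m) m a

/-- The set `J` of scales below `k` is rich: it contains more than three fifths of all the scales, more than one half
of the `m` lowest scales, and a positive proportion of the `m` highest scales (the last two conditions are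
void for `m ≤ D log k`). -/
structure Rich (δ : ℝ) (D k : ℕ) (J : Finset ℕ) : Prop where
  lt : ∀ j ∈ J, j < k
  all : (3 / 5 + δ) * k ≤ (J.card : ℝ)
  low : ∀ m ≤ k, (1 / 2 + δ) * m ≤ ((J.filter fun j => j < m).card : ℝ) + D * Real.log k
  high : ∀ m ≤ k, δ * m ≤ ((J.filter fun j => k - m ≤ j).card : ℝ) + D * Real.log k

/-- For `i < n`, `X_i` is a random integer, which takes the values `v` in the finite set `σ i` with the
probabilities `p i v`. -/
structure Laws (n : ℕ) (σ : ℕ → Finset ℤ) (p : ℕ → ℤ → ℝ) : Prop where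
  nonneg : ∀ i < n, ∀ v ∈ σ i, 0 ≤ p i v
  sum : ∀ i < n, ∑ v ∈ σ i, p i v = 1

open Classical in
/-- The probability that two independent copies `X`, `Y` of the random integer (with the values `v` in `s` and the
probabilities `p v`) satisfy `2 ^ j / B ≤ |X - Y| ≤ B 2 ^ j`. -/
noncomputable def atScale (B j : ℕ) (s : Finset ℤ) (p : ℤ → ℝ) : ℝ :=
  ∑ x ∈ s, ∑ y ∈ s, if (2 : ℤ) ^ j ≤ B * |x - y| ∧ |x - y| ≤ B * (2 : ℤ) ^ j then p x * p y else 0

/-- Every scale in `J` is served by some `X_i`, with a probability of at least `η`. -/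
def Serves (B n : ℕ) (η : ℝ) (J : Finset ℕ) (σ : ℕ → Finset ℤ) (p : ℕ → ℤ → ℝ) : Prop :=
  ∀ j ∈ J, ∃ i < n, η ≤ atScale B j (σ i) (p i)

open Classical in
/-- The probability that `(X_0, ..., X_(n-1))` has the property `A`, if the `X_i` are independent of each other. -/
noncomputable def Prob (n : ℕ) (σ : ℕ → Finset ℤ) (p : ℕ → ℤ → ℝ) (A : (Fin n → ℤ) → Prop) : ℝ :=
  ∑ x ∈ (Fintype.piFinset (fun i : Fin n => σ i)).filter A, ∏ i : Fin n, p i (x i)

open Classical in
/-- Let `B ≥ 1`, `D`, `T`, `U`, `W`, `η > 0` and `δ > 0` be fixed. Then there is a constant `C` with the following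
property. Let `k` be large, let `2 ^ k / B ≤ N ≤ B 2 ^ k`, let `J` be an arbitrary rich set of scales below `k`, and
let `X_0`, ..., `X_(n-1)` be independent random integers with finitely many values such that, for every `j` in `J`,
SOME `X_i` satisfies `2 ^ j / B ≤ |X_i - X_i'| ≤ B 2 ^ j` with a probability of at least `η`, where `X_i'` is an
independent copy of `X_i`. (The number `n`, the sizes of the `X_i` and the number of the scales which a single `X_i`
serves are arbitrary; nothing is assumed for the scales not in `J`.) Let all the values of the sum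
`S = X_0 + ... + X_(n-1)` be at most `B N` in absolute value, and let `Q ≤ N / exp (C log ^ 2 k)`; thus
`Q = N ^ (1 - o(1))`.

Let at most `k ^ T` systems of coefficients `λ_l(m)` with `|λ_l(m)| ≤ (τ(m) k) ^ T` and of heights
`x_l(m) ≤ B N` be given. Then, with a probability of at least `1 - 1 / k ^ U`, ALL the positive integers `a` at a
distance of at most `k ^ W` from `S` have the following property for all `l`: the sum of `λ_l(m) E(x_l(m); m, a)`
over the `m ≤ Q` coprime to `a` is at most `N / k ^ U` in absolute value, and so is the sum of `λ_l(m) E(y; m, a)` for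
all `y ≤ B N`. -/
theorem result (B D T U W : ℕ) (hB : 1 ≤ B) (η δ : ℝ) (hη : 0 < η) (hδ : 0 < δ) :
    ∃ C k₀ : ℕ, ∀ k : ℕ, k₀ ≤ k → ∀ J : Finset ℕ, Rich δ D k J → ∀ N : ℕ, 2 ^ k ≤ B * N → N ≤ B * 2 ^ k →
      ∀ (n : ℕ) (σ : ℕ → Finset ℤ) (p : ℕ → ℤ → ℝ), Laws n σ p → Serves B n η J σ p →
      (∀ v ∈ Fintype.piFinset (fun i : Fin n => σ i), |∑ i, v i| ≤ (B : ℤ) * N) →
      ∀ Q : ℕ, (Q : ℝ) ≤ N / Real.exp (C * Real.log k ^ 2) →
      ∀ L ≤ k ^ T, ∀ (lam : Fin L → ℕ → ℝ) (x : Fin L → ℕ → ℕ), (∀ l m, |lam l m| ≤ (τ m * k) ^ T) →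
      (∀ l m, x l m ≤ B * N) →
        Prob n σ p (fun v => ¬ ∀ a : ℕ, 0 < a → |(a : ℤ) - ∑ i, v i| ≤ (k : ℤ) ^ W → ∀ l,
          |weighted (lam l) (x l) Q a| ≤ N / (k : ℝ) ^ U ∧
          ∀ y ≤ B * N, |weighted (lam l) (fun _ => y) Q a| ≤ N / (k : ℝ) ^ U) ≤ 1 / (k : ℝ) ^ U := by
  classical
  obtain ⟨C, k₀, h0⟩ := Pool.Agent.HP84.RS.any_levels B D T U W hB η δ hη hδ
  refine ⟨C, k₀, fun k hk J hJ N hN1 hN2 n σ p hp hsc hsum Q hQ => ?_⟩
  have hQ' : (Q : ℝ) * Real.exp ((C : ℝ) * Real.log k ^ 2) ≤ N := by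
    rwa [le_div_iff₀ (Real.exp_pos _)] at hQ
  obtain ⟨h1, _⟩ := h0 k hk J n σ p ⟨hJ.lt, hJ.low, hJ.high, hJ.all⟩ hp.nonneg hp.sum
    (fun j hj => by
      obtain ⟨i, hi, hη⟩ := hsc j hj
      refine ⟨i, hi, hη.trans (le_of_eq ?_)⟩
      unfold atScale Pool.Agent.HP84.RS.scp
      norm_num) N hN1 hN2 hsum Q hQ'
  intro L hL lam x hlam hx
  unfold Prob
  rw [sum_filter]
  refine h1 L hL lam x hlam hx _ _ fun ω hω => ?_
  push Not at hω
  obtain ⟨a, ha0, ha1, l, ha2⟩ := hω
  refine ⟨a, ha0, ha1, l, ?_⟩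
  by_cases h : |weighted (lam l) (x l) Q a| ≤ N / (k : ℝ) ^ U
  · right
    obtain ⟨y, hy, h⟩ := ha2 h
    exact ⟨y, hy, h⟩
  · left
    push Not at h
    exact h

end Pool.Agent.Results.MP_00e23e_nt.SumsServingScales
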